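import Mathlib
import Pool.Agent.Lib.helper21.Bloch3

namespace Pool.Agent.Results.MP_034cab_an.SqrtLog
open Filter Metric Asymptotics
open Pool.Agent.Lib.Helper21

/-- The class of Bloch functions on the unit disc with `f 0 = 1` and positive real part. -/
def InC (f : ℂ → ℂ) : Prop :=
  DifferentiableOn ℂ f (ball 0 1) ∧
    (∃ B : ℝ, ∀ z ∈ ball (0 : ℂ) 1, (1 - ‖z‖ ^ 2) * ‖deriv f z‖ ≤ B) ∧ f 0 = 1 ∧
    ∀ z ∈ ball (0 : ℂ) 1, 0 < (f z).re

/-- The sum of `|a_n|^2` over `1 ≤ n ≤ N`, with `a_n` the Taylor coefficients of `f` at `0`. -/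
noncomputable def S (f : ℂ → ℂ) (N : ℕ) : ℝ :=
  ∑ n ∈ Finset.Icc 1 N, ‖iteratedDeriv n f 0 / (n.factorial : ℂ)‖ ^ 2

lemma S_eq {f : ℂ → ℂ} (h : f 0 = 1) (N : ℕ) :
    ∑ n ∈ Finset.range (N + 1), ‖iteratedDeriv n f 0 / (n.factorial : ℂ)‖ ^ 2 = 1 + S f N := by
  rw [S, Finset.range_eq_Ico, Finset.sum_eq_sum_Ico_succ_bot (by omega)]
  simp [h, Finset.Ico_add_one_right_eq_Icc]

lemma up {f : ℂ → ℂ} (h : InC f) : S f =O[atTop] fun N : ℕ => √(Real.log N) := by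
  obtain ⟨hf, ⟨B, hB⟩, e0, hp⟩ := h
  refine IsBigO.of_bound (4 + 6 * B ^ 2) ?_
  filter_upwards [eventually_ge_atTop 3] with N hN
  have := Bloch.upper hf e0 (fun z hz => (hp z hz).le) hB hN
  rw [S_eq e0] at this
  rw [Real.norm_of_nonneg (show 0 ≤ S f N from Finset.sum_nonneg fun _ _ => by positivity),
    Real.norm_of_nonneg (Real.sqrt_nonneg _)]
  linarith

theorem result :
    (∀ f : ℂ → ℂ, InC f → S f =O[atTop] fun N : ℕ => √(Real.log N)) ∧
    ∃ f : ℂ → ℂ, InC f ∧ S f =Θ[atTop] fun N : ℕ => √(Real.log N) := by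
  refine ⟨fun f => up, ?_⟩
  obtain ⟨F, hF, hB, e0, hp, δ, δ0, h⟩ := Bloch.lower
  have hC : InC F := ⟨hF, ⟨1, hB⟩, e0, hp⟩
  refine ⟨F, hC, up hC, IsBigO.of_bound (3 / δ) ?_⟩
  filter_upwards [eventually_ge_atTop 8] with N hN
  set k := Nat.log 8 N with hk
  have k1 : 1 ≤ k := Nat.le_log_of_pow_le (by norm_num) (by simpa using hN)
  have a1 : 8 ^ k ≤ N := Nat.pow_log_le_self 8 (by omega)
  have a2 : N < 8 ^ (k + 1) := Nat.lt_pow_succ_log_self (by norm_num) N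
  have h1 := (h k).trans (Finset.sum_le_sum_of_subset_of_nonneg
    (Finset.range_subset_range.2 (show 8 ^ k ≤ N + 1 by omega)) fun _ _ _ => by positivity)
  rw [S_eq e0] at h1
  have h2 : Real.log N ≤ 3 ^ 2 * k := by
    have b1 : (N : ℝ) ≤ 2 ^ (3 * (k + 1)) := by
      rw [pow_mul]; exact_mod_cast a2.le
    have b2 := Real.log_le_log (by exact_mod_cast (show 0 < N by omega)) b1
    rw [Real.log_pow] at b2
    have b3 : (1 : ℝ) ≤ k := by exact_mod_cast k1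
    have := Real.log_two_lt_d9
    push_cast at b2
    nlinarith
  have h3 := Real.sqrt_le_sqrt h2
  rw [Real.sqrt_mul (by norm_num), Real.sqrt_sq (by norm_num)] at h3
  rw [Real.norm_of_nonneg (Real.sqrt_nonneg _), div_mul_eq_mul_div, le_div_iff₀ δ0]
  have := le_abs_self (S F N)
  rw [Real.norm_eq_abs]
  nlinarith

end Pool.Agent.Results.MP_034cab_an.SqrtLog
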